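import Pool.Agent.helper33.PG.Spec

set_option autoImplicit false

/-!
# Project PG (MP_37e5fa_nt, MP_a70bdc_nt), row pg:DEC
-/

namespace Pool.Agent.PG

open Polynomial Finset

theorem DEC_coeff (m : ℕ) (c : ℕ → ℤ) (j : ℕ) :
    (∑ i ∈ range (m + 1), C (c i) * X ^ i : ℤ[X]).coeff j = if j ≤ m then c j else 0 := by
  rw [finsetSum_coeff]
  simp only [coeff_C_mul_X_pow]
  rw [Finset.sum_ite_eq (range (m + 1)) j c]
  by_cases h : j ≤ m
  · rw [if_pos h, if_pos (Finset.mem_range.2 (by omega))]
  · rw [if_neg h, if_neg (fun h' => h (by have := Finset.mem_range.1 h'; omega))]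

theorem DEC (hMID : MID_stmt) (hTOP : TOP_stmt) : DEC_stmt := by
  intro q a b haq
  ext j
  rw [coeff_add, coeff_X_pow_mul']
  unfold A B
  rw [DEC_coeff a (fun j => (S q a b).coeff j) j]
  by_cases h1 : j ≤ a
  · rw [if_pos h1, if_neg (by omega), add_zero]
  · rw [if_neg h1, zero_add]
    by_cases h2 : q ≤ j
    · rw [if_pos h2, DEC_coeff b (fun l => (S q a b).coeff (q + l)) (j - q)]
      by_cases h3 : j - q ≤ b
      · rw [if_pos h3]
        have : q + (j - q) = j := by omega
        simp only [this]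
      · rw [if_neg h3]
        exact coeff_eq_zero_of_natDegree_lt (lt_of_le_of_lt (hTOP q a b haq).1 (by omega))
    · rw [if_neg h2]
      exact hMID q a b j (by omega) (by omega)

end Pool.Agent.PG
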